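import Mathlib
import Pool.Agent.Helper99.RT.Final

set_option autoImplicit false

/-!
# Right translates in weighted `L¹` on the half-line: a counterexample

There are a submultiplicative weight `φ ≥ 1` on `ℝ` with `α₊ = α₋ = 0`, a function
`f ∈ L¹_φ(ℝ₊)` whose transform has no zeros in the closed lower half-plane and decays
subexponentially along the negative imaginary axis, and a nonzero `g ∈ L^∞_φ(ℝ₊)` annihilating all
right translates of `f`.

The weight is `exp` of a word length metric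
`ω(t) = inf {|t - ∑ m_j N_j| / 2 + ∑ c_j |m_j|}` with very sparse `N_j`, and `f` is a sum of
exponentials `b_j α_j⁻¹ e^{-(t - N_j)/α_j}` starting at the cheap points `N_j`.
-/

open MeasureTheory Filter Topology

namespace Pool.Agent.Results.MP_27fa52_an.TranslatesCounterexample

/-- `φ` is a weight with `α₊ = α₋ = 0`: it is measurable, at least `1`, submultiplicative on `ℝ`,
and `log φ(t) / t → 0` as `t → ±∞`. -/
structure IsWeight (φ : ℝ → ℝ) : Prop where
  measurable : Measurable φ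
  one_le : ∀ t, 1 ≤ φ t
  submul : ∀ t τ, φ (t + τ) ≤ φ t * φ τ
  alpha_plus : Tendsto (fun t => Real.log (φ t) / t) atTop (𝓝 0)
  alpha_minus : Tendsto (fun t => Real.log (φ t) / t) atBot (𝓝 0)

/-- `f ∈ L¹_φ(ℝ₊)`: `f` is measurable, vanishes on `(-∞, 0)`, and `∫₀^∞ |f| φ < ∞`. -/
structure MemL1 (φ : ℝ → ℝ) (f : ℝ → ℂ) : Prop where
  measurable : Measurable f
  zero_of_neg : ∀ t < 0, f t = 0
  integrable : IntegrableOn (fun t => ‖f t‖ * φ t) (Set.Ioi 0)

/-- `g ∈ L^∞_φ(ℝ₊)`: `g` is measurable and `g / φ` is essentially bounded on `[0, ∞)`. -/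
structure MemLinf (φ : ℝ → ℝ) (g : ℝ → ℂ) : Prop where
  measurable : Measurable g
  bounded : ∃ C : ℝ, ∀ᵐ t ∂(volume.restrict (Set.Ici (0 : ℝ))), ‖g t‖ ≤ C * φ t

/-- `f̂(z) = ∫₀^∞ f(t) e^{-itz} dt`. -/
noncomputable def hat (f : ℝ → ℂ) (z : ℂ) : ℂ :=
  ∫ t in Set.Ioi (0 : ℝ), f t * Complex.exp (-(Complex.I * t * z))

/-- Negation of Q1: there are a weight `φ` with `α₊ = α₋ = 0`, `f ∈ L¹_φ(ℝ₊)` with `f̂(z) ≠ 0` for
`Im z ≤ 0` and `log |f̂(iy)| / |y| → 0` as `y → -∞` (so that the limsup is `0`), and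
`g ∈ L^∞_φ(ℝ₊)` that does not vanish a.e. on `[0, ∞)`, such that
`∫₀^∞ f(t) g(t + τ) dt = 0` for all `τ > 0`. -/
theorem result : ∃ φ : ℝ → ℝ, IsWeight φ ∧ ∃ f g : ℝ → ℂ, MemL1 φ f ∧ MemLinf φ g ∧
    (∀ z : ℂ, z.im ≤ 0 → hat f z ≠ 0) ∧
    Tendsto (fun y : ℝ => Real.log ‖hat f (y * Complex.I)‖ / |y|) atBot (𝓝 0) ∧
    (∀ τ : ℝ, 0 < τ → ∫ t in Set.Ioi (0 : ℝ), f t * g (t + τ) = 0) ∧
    ¬ (∀ᵐ t ∂(volume.restrict (Set.Ici (0 : ℝ))), g t = 0) := by
  have hhat : ∀ z : ℂ, hat (fun t => (Pool.Agent.Helper99.RT.ff t : ℂ)) z =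
      Pool.Agent.Helper99.RT.lap (Complex.I * z) := by
    intro z
    unfold hat Pool.Agent.Helper99.RT.lap
    congr 1
    funext t
    congr 2
    ring
  refine ⟨fun t => Real.exp (Pool.Agent.Helper99.RT.omega t), ?_,
    fun t => (Pool.Agent.Helper99.RT.ff t : ℂ), Pool.Agent.Helper99.RT.gl, ?_, ?_, ?_, ?_, ?_, ?_⟩
  · refine ⟨?_, ?_, ?_, ?_, ?_⟩
    · exact (Real.continuous_exp.comp Pool.Agent.Helper99.RT.omega_continuous).measurable
    · intro t
      exact Real.one_le_exp (Pool.Agent.Helper99.RT.omega_nonneg t)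
    · intro t τ
      rw [← Real.exp_add]
      exact Real.exp_le_exp.mpr (Pool.Agent.Helper99.RT.omega_sub t τ)
    · simpa only [Real.log_exp] using Pool.Agent.Helper99.RT.omega_tendsto_top
    · simpa only [Real.log_exp] using Pool.Agent.Helper99.RT.omega_tendsto_bot
  · refine ⟨?_, ?_, ?_⟩
    · exact Complex.measurable_ofReal.comp Pool.Agent.Helper99.RT.ff_measurable
    · intro t ht
      rw [Pool.Agent.Helper99.RT.ff_of_nonpos ht.le, Complex.ofReal_zero]
    · refine Integrable.mono' Pool.Agent.Helper99.RT.hh_integrable ?_ ?_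
      · apply Measurable.aestronglyMeasurable
        exact (Complex.measurable_ofReal.comp Pool.Agent.Helper99.RT.ff_measurable).norm.mul
          (Real.continuous_exp.comp Pool.Agent.Helper99.RT.omega_continuous).measurable
      · apply ae_of_all
        intro t
        rw [Complex.norm_real, Real.norm_of_nonneg (Pool.Agent.Helper99.RT.ff_nonneg t),
          Real.norm_of_nonneg (mul_nonneg (Pool.Agent.Helper99.RT.ff_nonneg t)
            (Real.exp_pos _).le)]
        exact Pool.Agent.Helper99.RT.ff_mul_omega t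
  · exact ⟨Pool.Agent.Helper99.RT.gl_measurable, 2,
      ae_of_all _ Pool.Agent.Helper99.RT.gl_bound⟩
  · intro z hz
    rw [hhat]
    have hre : 0 ≤ (Complex.I * z).re := by
      simp only [Complex.mul_re, Complex.I_re, Complex.I_im, zero_mul, one_mul, zero_sub]
      linarith
    have h1 := Pool.Agent.Helper99.RT.lap_lower hre
    have h2 : 0 < ‖1 + Complex.I * z‖ := by
      rw [norm_pos_iff]
      intro h0
      have := congrArg Complex.re h0
      rw [Complex.add_re, Complex.one_re, Complex.zero_re] at this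
      linarith
    have h3 : 0 < 1 / 2 / ‖1 + Complex.I * z‖ := by positivity
    exact norm_pos_iff.mp (lt_of_lt_of_le h3 h1)
  · refine Pool.Agent.Helper99.RT.log_tendsto.congr ?_
    intro y
    rw [hhat]
    have : Complex.I * ((y : ℂ) * Complex.I) = -(y : ℂ) := by
      calc Complex.I * ((y : ℂ) * Complex.I) = (Complex.I * Complex.I) * y := by ring
        _ = -(y : ℂ) := by rw [Complex.I_mul_I]; ring
    rw [this]
  · intro τ _
    exact Pool.Agent.Helper99.RT.annihilate τ
  · intro h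
    rw [ae_restrict_iff' measurableSet_Ici, ae_iff] at h
    have h1 : Set.Icc (0 : ℝ) 1 ⊆
        {t | ¬ (t ∈ Set.Ici (0 : ℝ) → Pool.Agent.Helper99.RT.gl t = 0)} := by
      intro t ht hcon
      exact Pool.Agent.Helper99.RT.gl_ne_zero ht.1 ht.2 (hcon ht.1)
    have h2 := measure_mono (μ := volume) h1
    rw [h, Real.volume_Icc] at h2
    norm_num at h2

end Pool.Agent.Results.MP_27fa52_an.TranslatesCounterexample
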